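import Pool.Graph.R_seed8.Y825.KS.Shadow

/-!
# Kalai's inequality for all vertex subsets

The averaging argument of the library (`Pool.Graph.R_seed8.Y825.KS.Shadow`) bounds the time until a
given tight tree appears when the vertices of a hypergraph are revealed in a random order. Here this
is turned into an inequality of LYM type for the vertex sets which span no copy of the tree.
-/

set_option autoImplicit false

namespace Pool.Agent.H669.Kal

open Finset ES903 H223R3.Kalai

open scoped FinsetFamily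

/-! ### the averaging operator -/

section avg

variable {V : Type*} [DecidableEq V]

theorem choose_id (r j : ℕ) (hj : j ≤ r) :
    (1 : ℚ) / ((r + 1).choose j : ℚ) + 1 / ((r + 1).choose (j + 1) : ℚ) =
      ((r : ℚ) + 2) / ((r : ℚ) + 1) * (1 / (r.choose j : ℚ)) := by
  have h1 : ((r + 1).choose j : ℚ) * ((r : ℚ) + 1 - j) = (r.choose j : ℚ) * ((r : ℚ) + 1) := by
    have h := Nat.add_one_mul_choose_eq r j
    have h2 := Nat.choose_succ_right_eq (r + 1) j
    have h3 : (((r + 1).choose (j + 1) * (j + 1) : ℕ) : ℚ) =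
        (((r + 1).choose j * (r + 1 - j) : ℕ) : ℚ) := by exact_mod_cast h2
    have h4 : (((r + 1) * r.choose j : ℕ) : ℚ) = (((r + 1).choose (j + 1) * (j + 1) : ℕ) : ℚ) := by
      exact_mod_cast h
    push_cast [Nat.cast_sub (show j ≤ r + 1 by omega)] at h3 h4
    linarith
  have h2 : ((r + 1).choose (j + 1) : ℚ) * ((j : ℚ) + 1) = (r.choose j : ℚ) * ((r : ℚ) + 1) := by
    have h := Nat.add_one_mul_choose_eq r j
    have h4 : (((r + 1) * r.choose j : ℕ) : ℚ) = (((r + 1).choose (j + 1) * (j + 1) : ℕ) : ℚ) := by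
      exact_mod_cast h
    push_cast at h4
    linarith
  have p1 : (0 : ℚ) < (r.choose j : ℚ) := by exact_mod_cast Nat.choose_pos hj
  have p2 : (0 : ℚ) < ((r + 1).choose j : ℚ) := by
    exact_mod_cast Nat.choose_pos (show j ≤ r + 1 by omega)
  have p3 : (0 : ℚ) < ((r + 1).choose (j + 1) : ℚ) := by
    exact_mod_cast Nat.choose_pos (show j + 1 ≤ r + 1 by omega)
  have p4 : (0 : ℚ) < (r : ℚ) + 1 := by positivity
  have e1 : (1 : ℚ) / ((r + 1).choose j : ℚ) = ((r : ℚ) + 1 - j) / ((r.choose j : ℚ) * ((r : ℚ) + 1)) := by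
    rw [div_eq_div_iff p2.ne' (by positivity)]
    linarith
  have e2 : (1 : ℚ) / ((r + 1).choose (j + 1) : ℚ) =
      ((j : ℚ) + 1) / ((r.choose j : ℚ) * ((r : ℚ) + 1)) := by
    rw [div_eq_div_iff p3.ne' (by positivity)]
    linarith
  rw [e1, e2]
  field_simp
  ring

/-- one irrelevant vertex -/
theorem E_insert (R : Finset V) (x : V) (hx : x ∉ R) (φ : Finset V → ℚ)
    (h : ∀ S, S ⊆ R → φ (insert x S) = φ S) :
    E (insert x R) φ = ((R.card : ℚ) + 2) / ((R.card : ℚ) + 1) * E R φ := by
  unfold E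
  rw [Finset.sum_powerset_insert hx, ← Finset.sum_add_distrib, Finset.mul_sum]
  refine Finset.sum_congr rfl fun S hS => ?_
  have hS' := Finset.mem_powerset.1 hS
  rw [h S hS', Finset.card_insert_of_notMem hx, Finset.card_insert_of_notMem fun h' => hx (hS' h')]
  have := choose_id R.card S.card (Finset.card_le_card hS')
  rw [div_eq_mul_one_div (φ S) ((R.card + 1).choose S.card : ℚ),
    div_eq_mul_one_div (φ S) ((R.card + 1).choose (S.card + 1) : ℚ), ← mul_add, this,
    div_eq_mul_one_div (φ S) (R.card.choose S.card : ℚ)]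
  ring

/-- several irrelevant vertices -/
theorem E_union (R : Finset V) (φ : Finset V → ℚ) (U : Finset V) (hU : Disjoint R U)
    (h : ∀ S, φ S = φ (S \ U)) :
    E (R ∪ U) φ = ((R.card : ℚ) + U.card + 1) / ((R.card : ℚ) + 1) * E R φ := by
  have key : ∀ A : Finset V, A ⊆ U →
      E (R ∪ A) φ = ((R.card : ℚ) + A.card + 1) / ((R.card : ℚ) + 1) * E R φ := by
    intro A
    induction A using Finset.induction_on with
    | empty =>
      intro _
      have : ((R.card : ℚ) + 1) ≠ 0 := by positivity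
      simp [this]
    | insert x A hx ih =>
      intro hA
      have hxU : x ∈ U := hA (Finset.mem_insert_self _ _)
      have hAU : A ⊆ U := (Finset.subset_insert _ _).trans hA
      have hxR : x ∉ R ∪ A := by
        rw [Finset.mem_union, not_or]
        exact ⟨fun h' => Finset.disjoint_left.1 hU h' hxU, hx⟩
      rw [Finset.union_insert, E_insert _ _ hxR, ih hAU, Finset.card_union_of_disjoint
        (Finset.disjoint_of_subset_right hAU hU), Finset.card_insert_of_notMem hx]
      · push_cast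
        have p1 : ((R.card : ℚ) + 1) ≠ 0 := by positivity
        have p2 : ((R.card : ℚ) + A.card + 1) ≠ 0 := by positivity
        field_simp
        ring
      · intro S _
        rw [h (insert x S), h S]
        congr 1
        ext y
        simp only [Finset.mem_sdiff, Finset.mem_insert]
        constructor
        · rintro ⟨h1 | h1, h2⟩
          · exact absurd (h1 ▸ hxU) h2
          · exact ⟨h1, h2⟩
        · rintro ⟨h1, h2⟩
          exact ⟨Or.inr h1, h2⟩
  exact key U le_rfl

end avg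

/-! ### copies of a tree -/

section copies

variable {V : Type*} [DecidableEq V]

/-- `H` contains, inside the vertex set `W`, a copy of the hypergraph with edges
`e 0, …, e (t - 1)`. -/
def CopyIn (H : Finset (Finset V)) (t : ℕ) (e : ℕ → Finset ℕ) (W : Finset V) : Prop :=
  ∃ f : ℕ → V, Set.InjOn f {x : ℕ | ∃ i, i < t ∧ x ∈ e i} ∧
    ∀ i, i < t → (e i).image f ∈ H ∧ (e i).image f ⊆ W

theorem CopyIn.mono {H : Finset (Finset V)} {t : ℕ} {e : ℕ → Finset ℕ} {W W' : Finset V}
    (h : CopyIn H t e W) (hW : W ⊆ W') : CopyIn H t e W' := by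
  obtain ⟨f, h1, h2⟩ := h
  exact ⟨f, h1, fun i hi => ⟨(h2 i hi).1, (h2 i hi).2.trans hW⟩⟩

/-- degrees -/
def deg (H : Finset (Finset V)) (U : Finset V) : ℕ := (H.filter fun h => U ⊆ h).card

/-- `e 0, …, e (t - 1)` is a proper ordering of the edges of a tight `r`-tree. -/
def IsTightTree (r t : ℕ) (e : ℕ → Finset ℕ) : Prop :=
  (∀ i, i < t → (e i).card = r) ∧
    ∀ i, 0 < i → i < t → ∃ v ∈ e i, (∀ j, j < i → v ∉ e j) ∧ ∃ j, j < i ∧ e i \ {v} ⊆ e j

end copies

section main

variable {V : Type*} [DecidableEq V] [Fintype V] {d : ℕ}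

/-- the inequality for ordered roots -/
theorem cost_copy (H : Finset (Finset V)) (hH : ∀ h ∈ H, h.card = d + 1) (t : ℕ) (ht : 1 ≤ t)
    (e : ℕ → Finset ℕ) (he : IsTightTree (d + 1) t e) [Nonempty V] :
    ∑ u ∈ Y825.KS.Sh H d, (((Nb H u).card : ℚ) + 1) *
        E univ (Fail fun S => CopyIn H t e (S ∪ univ.image u)) ≤
      (t : ℚ) * (((Y825.KS.Sh H d).card : ℚ) * ((Fintype.card V : ℚ) + 1)) := by
  have hstep : ∀ i, 0 < i → i < t → ∃ j, j < i ∧ ∃ S : Finset ℕ, S ⊆ e j ∧ S.card = d ∧
      ∃ v : ℕ, v ∉ (Finset.range i).biUnion e ∧ e i = insert v S := by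
    intro i hi hit
    obtain ⟨v, hv, hnew, j, hj, hsub⟩ := he.2 i hi hit
    refine ⟨j, hj, e i \ {v}, hsub, ?_, v, ?_, ?_⟩
    · rw [Finset.card_sdiff_of_subset (Finset.singleton_subset_iff.2 hv), he.1 i hit,
        Finset.card_singleton]
      omega
    · rw [Finset.mem_biUnion]
      rintro ⟨k, hk, hvk⟩
      exact hnew k (Finset.mem_range.1 hk) hvk
    · ext x
      by_cases hx : x = v
      · subst hx; simp [hv]
      · simp [hx]
  obtain ⟨T, t1, t2, t3, t4, t5⟩ := HT.exists_HT e t (he.1 0 ht) hstep (t - 1) (by omega)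
  have ht' : t - 1 + 1 = t := by omega
  rw [ht'] at t3 t4 t5
  have hc := Y825.KS.cost H hH T
  rw [t3] at hc
  refine le_trans (Finset.sum_le_sum fun u hu => ?_) hc
  refine mul_le_mul_of_nonneg_left (E_mono _ fun S _ => Fail_mono fun hE => ?_) (by positivity)
  obtain ⟨f, f1, f2, f3, f4⟩ := HT.extract H hH T t1 t2 u S hE
  have hu' : Function.Injective u := ((Y825.KS.mem_Sh H u).1 hu).1
  have hmem : ∀ x, (∃ i, i < t ∧ x ∈ e i) → x ∈ T.nv ∪ univ.image T.root := by
    rintro x ⟨i, hi, hx⟩
    rw [t5, Finset.mem_biUnion]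
    exact ⟨i, Finset.mem_range.2 hi, hx⟩
  refine ⟨f, ?_, fun i hi => ⟨f4 _ ?_, ?_⟩⟩
  · intro x hx y hy hxy
    have hx' := hmem x hx
    have hy' := hmem y hy
    rw [Finset.mem_union] at hx' hy'
    rcases hx' with hx' | hx'
    · rcases hy' with hy' | hy'
      · exact f2 (by exact_mod_cast hx') (by exact_mod_cast hy') hxy
      · obtain ⟨j, _, hj⟩ := Finset.mem_image.1 hy'
        rw [← hj, f1] at hxy
        exact absurd (Finset.mem_image.2 ⟨j, Finset.mem_univ _, hxy.symm⟩) (f3 x hx').2
    · obtain ⟨i, _, hi⟩ := Finset.mem_image.1 hx'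
      rcases hy' with hy' | hy'
      · rw [← hi, f1] at hxy
        exact absurd (Finset.mem_image.2 ⟨i, Finset.mem_univ _, hxy⟩) (f3 y hy').2
      · obtain ⟨j, _, hj⟩ := Finset.mem_image.1 hy'
        rw [← hi, ← hj, f1, f1] at hxy
        rw [← hi, ← hj, hu' hxy]
  · rw [t4]
    exact Finset.mem_image_of_mem _ (Finset.mem_range.2 hi)
  · intro y hy
    obtain ⟨x, hx, rfl⟩ := Finset.mem_image.1 hy
    have hx' := hmem x ⟨i, hi, hx⟩
    rw [Finset.mem_union] at hx' ⊢
    rcases hx' with hx' | hx'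
    · exact Or.inl (f3 x hx').1
    · obtain ⟨j, _, hj⟩ := Finset.mem_image.1 hx'
      rw [← hj, f1]
      exact Or.inr (Finset.mem_image_of_mem _ (Finset.mem_univ _))

theorem Nb_ge_deg (H : Finset (Finset V)) (hH : ∀ h ∈ H, h.card = d + 1) (u : Fin d → V)
    (hu : Function.Injective u) : deg H (univ.image u) ≤ (Nb H u).card := nb_ge H hH u hu

theorem sum_Sh_ge (H : Finset (Finset V)) (hH : ∀ h ∈ H, h.card = d + 1) (F : Finset V → ℚ)
    (hF : ∀ U, 0 ≤ F U) :
    (d.factorial : ℚ) * ∑ U ∈ ∂ H, F U ≤ ∑ u ∈ Y825.KS.Sh H d, F (univ.image u) := by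
  classical
  have hmap : ∀ u ∈ Y825.KS.Sh H d, univ.image u ∈ ∂ H := by
    intro u hu
    obtain ⟨-, w, hw⟩ := (Y825.KS.mem_Sh H u).1 hu
    simp only [Nb, Finset.mem_filter, Finset.mem_univ, true_and] at hw
    rw [Finset.mem_shadow_iff]
    refine ⟨_, hw, w, Finset.mem_insert_self _ _, ?_⟩
    rw [Finset.erase_insert]
    intro h
    obtain ⟨j, _, hj⟩ := Finset.mem_image.1 h
    exact not_mem_image H hH u w hw j hj
  rw [← Finset.sum_fiberwise_of_maps_to hmap, Finset.mul_sum]
  refine Finset.sum_le_sum fun U hU => ?_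
  have h1 : ∑ u ∈ (Y825.KS.Sh H d).filter (fun u => univ.image u = U), F (univ.image u) =
      (((Y825.KS.Sh H d).filter (fun u => univ.image u = U)).card : ℚ) * F U := by
    rw [Finset.sum_congr rfl fun u hu => by rw [(Finset.mem_filter.1 hu).2], Finset.sum_const,
      nsmul_eq_mul]
  rw [h1]
  refine mul_le_mul_of_nonneg_right ?_ (hF U)
  have hUc : U.card = d := by
    obtain ⟨h, hh, a, ha, rfl⟩ := Finset.mem_shadow_iff.1 hU
    rw [Finset.card_erase_of_mem ha, hH h hh]
    rfl
  have h2 : Fintype.card (Fin d ↪ {x // x ∈ U}) = d.factorial := by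
    rw [Fintype.card_embedding_eq, Fintype.card_fin, Fintype.card_coe, hUc,
      Nat.descFactorial_self]
  rw [← h2, ← Finset.card_univ]
  exact_mod_cast Finset.card_le_card_of_injOn
    (fun (f : Fin d ↪ {x // x ∈ U}) => (fun i => (f i).val)) (by
      intro f _
      have himg : univ.image (fun i => (f i).val) = U := by
        apply Finset.eq_of_subset_of_card_le
        · intro z hz
          obtain ⟨i, _, hi⟩ := Finset.mem_image.1 hz
          rw [← hi]; exact (f i).2
        · rw [Finset.card_image_of_injective, Finset.card_univ, Fintype.card_fin, hUc]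
          intro i j hij
          exact f.injective (Subtype.ext hij)
      simp only [Finset.coe_filter, Set.mem_ofPred_eq, Y825.KS.mem_Sh]
      refine ⟨⟨?_, ?_⟩, himg⟩
      · intro i j hij
        exact f.injective (Subtype.ext hij)
      · obtain ⟨h, hh, a, ha, hU'⟩ := Finset.mem_shadow_iff.1 hU
        refine ⟨a, ?_⟩
        simp only [Nb, Finset.mem_filter, Finset.mem_univ, true_and]
        rw [himg, ← hU', Finset.insert_erase ha]
        exact hh) (by
      intro f _ g _ hfg
      ext i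
      exact congrFun hfg i)

open Classical in
/-- the inequality for unordered roots, with the averaging operator -/
theorem cost_unordered (H : Finset (Finset V)) (hH : ∀ h ∈ H, h.card = d + 1) (t : ℕ) (ht : 1 ≤ t)
    (e : ℕ → Finset ℕ) (he : IsTightTree (d + 1) t e) :
    ∑ U ∈ ∂ H, ((deg H U : ℚ) + 1) * E (univ \ U) (Fail fun S => CopyIn H t e (S ∪ U)) ≤
      (t : ℚ) * ((Fintype.card V : ℚ) - d + 1) * ((∂ H).card : ℚ) := by
  rcases Finset.eq_empty_or_nonempty (∂ H) with h0 | h0
  · simp [h0]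
  obtain ⟨U₀, hU₀⟩ := h0
  have hcard : ∀ U ∈ ∂ H, U.card = d := by
    intro U hU
    obtain ⟨h, hh, a, ha, rfl⟩ := Finset.mem_shadow_iff.1 hU
    rw [Finset.card_erase_of_mem ha, hH h hh]
    rfl
  have hne : Nonempty V := by
    obtain ⟨h, hh, a, ha, rfl⟩ := Finset.mem_shadow_iff.1 hU₀
    exact ⟨a⟩
  have hdn : d ≤ Fintype.card V := by
    rw [← hcard U₀ hU₀]
    exact Finset.card_le_univ _
  set n : ℚ := (Fintype.card V : ℚ) with hn
  have hdn' : (d : ℚ) ≤ n := by rw [hn]; exact_mod_cast hdn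
  have hpos : 0 < n - d + 1 := by linarith
  have hpos2 : 0 < n + 1 := by rw [hn]; positivity
  set F : Finset V → ℚ := fun U => ((deg H U : ℚ) + 1) *
    ((n + 1) / (n - d + 1) * E (univ \ U) (Fail fun S => CopyIn H t e (S ∪ U))) with hF
  have hFn : ∀ U, 0 ≤ F U := by
    intro U
    rw [hF]
    have : 0 ≤ E (univ \ U) (Fail fun S => CopyIn H t e (S ∪ U)) := E_nonneg _ (Fail_nonneg _)
    positivity
  have h1 := sum_Sh_ge H hH F hFn
  have h2 := cost_copy H hH t ht e he
  have h3 : ∑ u ∈ Y825.KS.Sh H d, F (univ.image u) ≤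
      ∑ u ∈ Y825.KS.Sh H d, (((Nb H u).card : ℚ) + 1) *
        E univ (Fail fun S => CopyIn H t e (S ∪ univ.image u)) := by
    refine Finset.sum_le_sum fun u hu => ?_
    have hu' : Function.Injective u := ((Y825.KS.mem_Sh H u).1 hu).1
    have hc : (univ.image u : Finset V).card = d := by
      rw [Finset.card_image_of_injective _ hu', Finset.card_univ, Fintype.card_fin]
    have hE : E univ (Fail fun S => CopyIn H t e (S ∪ univ.image u)) =
        (n + 1) / (n - d + 1) *
          E (univ \ univ.image u) (Fail fun S => CopyIn H t e (S ∪ univ.image u)) := by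
      have := E_union (univ \ univ.image u) (Fail fun S => CopyIn H t e (S ∪ univ.image u))
        (univ.image u) Finset.sdiff_disjoint (by
          intro S
          have : S \ univ.image u ∪ univ.image u = S ∪ univ.image u := by
            rw [Finset.sdiff_union_self_eq_union]
          unfold Fail
          simp only [this])
      rw [Finset.sdiff_union_of_subset (Finset.subset_univ _)] at this
      rw [this, Finset.card_sdiff_of_subset (Finset.subset_univ _), hc, Finset.card_univ,
        Nat.cast_sub hdn, ← hn]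
      congr 2
      ring
    rw [hE]
    have hd := Nb_ge_deg H hH u hu'
    have hd' : ((deg H (univ.image u) : ℕ) : ℚ) ≤ ((Nb H u).card : ℚ) := by exact_mod_cast hd
    rw [hF]
    refine mul_le_mul_of_nonneg_right (by linarith) ?_
    have : 0 ≤ E (univ \ univ.image u) (Fail fun S => CopyIn H t e (S ∪ univ.image u)) :=
      E_nonneg _ (Fail_nonneg _)
    positivity
  have h4 : ((Y825.KS.Sh H d).card : ℚ) ≤ (d.factorial : ℚ) * ((∂ H).card : ℚ) := by
    exact_mod_cast Y825.KS.card_Sh_le H hH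
  have h5 : (d.factorial : ℚ) * ∑ U ∈ ∂ H, F U ≤
      (t : ℚ) * (((d.factorial : ℚ) * ((∂ H).card : ℚ)) * (n + 1)) := by
    refine (h1.trans h3).trans (h2.trans ?_)
    refine mul_le_mul_of_nonneg_left (mul_le_mul_of_nonneg_right h4 hpos2.le) (by positivity)
  have hfac : (0 : ℚ) < (d.factorial : ℚ) := by exact_mod_cast Nat.factorial_pos d
  have h6 : ∑ U ∈ ∂ H, F U = (n + 1) / (n - d + 1) *
      ∑ U ∈ ∂ H, ((deg H U : ℚ) + 1) * E (univ \ U) (Fail fun S => CopyIn H t e (S ∪ U)) := by
    rw [Finset.mul_sum]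
    refine Finset.sum_congr rfl fun U _ => ?_
    rw [hF]
    ring
  rw [h6] at h5
  set X : ℚ := ∑ U ∈ ∂ H, ((deg H U : ℚ) + 1) *
    E (univ \ U) (Fail fun S => CopyIn H t e (S ∪ U)) with hX
  have h7 : (d.factorial : ℚ) * (n + 1) * X ≤
      (d.factorial : ℚ) * (n + 1) * ((t : ℚ) * (n - d + 1) * ((∂ H).card : ℚ)) := by
    have h8 : (d.factorial : ℚ) * ((n + 1) / (n - d + 1) * X) =
        ((d.factorial : ℚ) * (n + 1) * X) / (n - d + 1) := by
      field_simp
    rw [h8, div_le_iff₀ hpos] at h5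
    calc _ ≤ _ := h5
      _ = _ := by ring
  exact le_of_mul_le_mul_left h7 (by positivity)

end main

end Pool.Agent.H669.Kal
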