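import Pool.Agent.H669.Kal.Lym

/-!
# The proportion of vertex sets which contain a tight tree; complete hypergraphs
-/

set_option autoImplicit false

namespace Pool.Agent.H669.Kal

open Finset ES903 H223R3.Kalai

open scoped FinsetFamily

variable {V : Type*} [DecidableEq V] [Fintype V] {d : ℕ}

/-- the number of supersets of given size -/
theorem card_supersets (U : Finset V) (m : ℕ) (hm : U.card ≤ m) :
    (((univ : Finset V).powersetCard m).filter (fun W => U ⊆ W)).card =
      (Fintype.card V - U.card).choose (m - U.card) := by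
  have hR : (univ \ U : Finset V).card = Fintype.card V - U.card := by
    rw [Finset.card_sdiff_of_subset (Finset.subset_univ _), Finset.card_univ]
  rw [← hR, ← Finset.card_powersetCard]
  refine Finset.card_nbij' (fun W => W \ U) (fun S => S ∪ U) ?_ ?_ ?_ ?_
  · intro W hW
    simp only [Finset.coe_filter, Finset.mem_filter, Set.mem_ofPred_eq,
      Finset.mem_powersetCard, Finset.mem_coe] at hW ⊢
    refine ⟨Finset.sdiff_subset_sdiff (Finset.subset_univ _) le_rfl, ?_⟩
    rw [Finset.card_sdiff_of_subset hW.2, hW.1.2]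
  · intro S hS
    simp only [Finset.coe_filter, Finset.mem_filter, Set.mem_ofPred_eq,
      Finset.mem_powersetCard, Finset.mem_coe] at hS ⊢
    have hd : Disjoint S U := Finset.disjoint_of_subset_left hS.1 Finset.sdiff_disjoint
    refine ⟨⟨Finset.subset_univ _, ?_⟩, Finset.subset_union_right⟩
    rw [Finset.card_union_of_disjoint hd, hS.2]
    omega
  · intro W hW
    simp only [Finset.coe_filter, Finset.mem_filter, Set.mem_ofPred_eq] at hW
    exact Finset.sdiff_union_of_subset hW.2
  · intro S hS
    simp only [Finset.mem_coe, Finset.mem_powersetCard] at hS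
    have hd : Disjoint S U := Finset.disjoint_of_subset_left hS.1 Finset.sdiff_disjoint
    show (S ∪ U) \ U = S
    rw [Finset.union_sdiff_right, Finset.sdiff_eq_self_of_disjoint hd]

/-- the handshake lemma -/
theorem sum_deg (H : Finset (Finset V)) (hH : ∀ h ∈ H, h.card = d + 1) :
    ∑ U ∈ (univ : Finset V).powersetCard d, deg H U = (d + 1) * H.card := by
  unfold deg
  simp only [Finset.card_filter]
  rw [Finset.sum_comm]
  have : ∀ h ∈ H, ∑ U ∈ (univ : Finset V).powersetCard d, (if U ⊆ h then 1 else 0) = d + 1 := by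
    intro h hh
    rw [← Finset.card_filter]
    have h1 : ((univ : Finset V).powersetCard d).filter (fun U => U ⊆ h) = h.powersetCard d := by
      ext U
      simp only [Finset.mem_filter, Finset.mem_powersetCard, Finset.subset_univ, true_and]
      tauto
    rw [h1, Finset.card_powersetCard, hH h hh, Nat.choose_succ_self_right]
  rw [Finset.sum_congr rfl this, Finset.sum_const, smul_eq_mul, mul_comm]

theorem deg_le (H : Finset (Finset V)) (hH : ∀ h ∈ H, h.card = d + 1) (U : Finset V)
    (hU : U.card = d) : deg H U ≤ Fintype.card V - d := by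
  have h1 : deg H U ≤ (((univ : Finset V).powersetCard (d + 1)).filter (fun W => U ⊆ W)).card := by
    refine Finset.card_le_card fun h hh => ?_
    rw [Finset.mem_filter] at hh ⊢
    exact ⟨Finset.mem_powersetCard.2 ⟨Finset.subset_univ _, hH h hh.1⟩, hh.2⟩
  rw [card_supersets U (d + 1) (by omega), hU, Nat.add_sub_cancel_left, Nat.choose_one_right] at h1
  exact h1

theorem deg_pos_of_mem (H : Finset (Finset V)) (hH : ∀ h ∈ H, h.card = d + 1) (U : Finset V)
    (hU : U.card = d) (h : U ∉ ∂ H) : deg H U = 0 := by
  unfold deg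
  rw [Finset.card_eq_zero, Finset.filter_eq_empty_iff]
  intro W hW hUW
  apply h
  have h1 : (W \ U).Nonempty := by
    rw [← Finset.card_pos, Finset.card_sdiff_of_subset hUW, hH W hW, hU]
    omega
  obtain ⟨x, hx⟩ := h1
  rw [Finset.mem_sdiff] at hx
  refine Finset.mem_shadow_iff.2 ⟨W, hW, x, hx.1, ?_⟩
  symm
  apply Finset.eq_of_subset_of_card_le
  · intro y hy
    rw [Finset.mem_erase]
    exact ⟨fun h => hx.2 (h ▸ hy), hUW hy⟩
  · rw [Finset.card_erase_of_mem hx.1, hH W hW, hU]
    simp

open Classical in
/-- the layer inequality with all `d`-sets -/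
theorem layer_all (H : Finset (Finset V)) (hH : ∀ h ∈ H, h.card = d + 1) (t : ℕ) (ht : 1 ≤ t)
    (e : ℕ → Finset ℕ) (he : IsTightTree (d + 1) t e) (m : ℕ) (hdm : d ≤ m)
    (hm : m ≤ Fintype.card V) :
    ∑ W ∈ (free H t e).filter (fun W => W.card = m),
        ∑ U ∈ W.powersetCard d, (deg H U + 1) ≤
      t * (Fintype.card V - d + 1).choose (m - d + 1) * (Fintype.card V).choose d := by
  have h1 := layer H hH t ht e he m hdm hm
  have h2 : ∑ W ∈ (free H t e).filter (fun W => W.card = m),
        ∑ U ∈ W.powersetCard d, (deg H U + 1) =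
      ∑ W ∈ (free H t e).filter (fun W => W.card = m),
        ∑ U ∈ (∂ H).filter (fun U => U ⊆ W), (deg H U + 1) +
      ∑ W ∈ (free H t e).filter (fun W => W.card = m),
        (((univ : Finset V).powersetCard d \ ∂ H).filter (fun U => U ⊆ W)).card := by
    rw [← Finset.sum_add_distrib]
    refine Finset.sum_congr rfl fun W _ => ?_
    rw [← Finset.sum_filter_add_sum_filter_not (W.powersetCard d) (fun U => U ∈ ∂ H)]
    congr 1
    · refine Finset.sum_congr ?_ fun _ _ => rfl
      ext U
      simp only [Finset.mem_filter, Finset.mem_powersetCard]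
      constructor
      · rintro ⟨⟨h3, _⟩, h4⟩
        exact ⟨h4, h3⟩
      · rintro ⟨h3, h4⟩
        exact ⟨⟨h4, card_of_mem_shadow H hH h3⟩, h3⟩
    · rw [Finset.card_eq_sum_ones]
      refine Finset.sum_congr ?_ fun U hU => ?_
      · ext U
        simp only [Finset.mem_filter, Finset.mem_powersetCard, Finset.mem_sdiff,
          Finset.subset_univ, true_and]
        tauto
      · simp only [Finset.mem_filter, Finset.mem_powersetCard, Finset.mem_sdiff,
          Finset.subset_univ, true_and] at hU
        rw [deg_pos_of_mem H hH U hU.1.1 hU.1.2]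
  have h3 : ∑ W ∈ (free H t e).filter (fun W => W.card = m),
        (((univ : Finset V).powersetCard d \ ∂ H).filter (fun U => U ⊆ W)).card ≤
      ((Fintype.card V).choose d - (∂ H).card) * (Fintype.card V - d).choose (m - d) := by
    have h4 : ∑ W ∈ (free H t e).filter (fun W => W.card = m),
        (((univ : Finset V).powersetCard d \ ∂ H).filter (fun U => U ⊆ W)).card ≤
        ∑ W ∈ (univ : Finset V).powersetCard m,
        (((univ : Finset V).powersetCard d \ ∂ H).filter (fun U => U ⊆ W)).card := by
      refine Finset.sum_le_sum_of_subset fun W hW => ?_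
      rw [Finset.mem_filter] at hW
      exact Finset.mem_powersetCard.2 ⟨Finset.subset_univ _, hW.2⟩
    refine h4.trans (le_of_eq ?_)
    simp only [Finset.card_filter]
    rw [Finset.sum_comm]
    have h5 : ∀ U ∈ (univ : Finset V).powersetCard d \ ∂ H,
        ∑ W ∈ (univ : Finset V).powersetCard m, (if U ⊆ W then 1 else 0) =
          (Fintype.card V - d).choose (m - d) := by
      intro U hU
      rw [Finset.mem_sdiff, Finset.mem_powersetCard] at hU
      rw [← Finset.card_filter, card_supersets U m (by omega), hU.1.2]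
    rw [Finset.sum_congr rfl h5, Finset.sum_const, smul_eq_mul]
    congr 1
    rw [Finset.card_sdiff_of_subset, Finset.card_powersetCard, Finset.card_univ]
    intro U hU
    exact Finset.mem_powersetCard.2 ⟨Finset.subset_univ _, card_of_mem_shadow H hH hU⟩
  have h6 : (∂ H).card ≤ (Fintype.card V).choose d := by
    rw [← Finset.card_univ, ← Finset.card_powersetCard]
    refine Finset.card_le_card fun U hU => ?_
    exact Finset.mem_powersetCard.2 ⟨Finset.subset_univ _, card_of_mem_shadow H hH hU⟩
  have h7 : (Fintype.card V - d).choose (m - d) ≤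
      t * (Fintype.card V - d + 1).choose (m - d + 1) := by
    rw [Nat.choose_succ_succ]
    nlinarith [Nat.zero_le ((Fintype.card V - d).choose (m - d)),
      Nat.zero_le ((Fintype.card V - d).choose (m - d + 1))]
  rw [h2]
  calc _ ≤ t * (Fintype.card V - d + 1).choose (m - d + 1) * (∂ H).card +
        ((Fintype.card V).choose d - (∂ H).card) * (t * (Fintype.card V - d + 1).choose (m - d + 1)) :=
        Nat.add_le_add h1 (h3.trans (Nat.mul_le_mul_left _ h7))
    _ = t * (Fintype.card V - d + 1).choose (m - d + 1) *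
        ((∂ H).card + ((Fintype.card V).choose d - (∂ H).card)) := by ring
    _ = _ := by rw [Nat.add_sub_cancel' h6]

open Classical in
/-- the proportion of the `m`-sets which contain the tree -/
theorem fraction (H : Finset (Finset V)) (hH : ∀ h ∈ H, h.card = d + 1) (t : ℕ) (ht : 1 ≤ t)
    (e : ℕ → Finset ℕ) (he : IsTightTree (d + 1) t e) (m : ℕ) (hdm : d ≤ m)
    (hm : m ≤ Fintype.card V) :
    ((((d : ℚ) + 1) * H.card / ((Fintype.card V).choose d : ℚ) + 1) /
        ((Fintype.card V : ℚ) - d + 1) - (t : ℚ) / ((m : ℚ) - d + 1)) *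
      ((Fintype.card V).choose m : ℚ) ≤
      ((((univ : Finset V).powersetCard m).filter (fun W => CopyIn H t e W)).card : ℚ) := by
  set n := Fintype.card V with hn
  have h1 := layer_all H hH t ht e he m hdm hm
  rw [← hn] at h1
  have hall : ∑ W ∈ (univ : Finset V).powersetCard m, ∑ U ∈ W.powersetCard d, (deg H U + 1) =
      (n - d).choose (m - d) * ((d + 1) * H.card + n.choose d) := by
    have e1 : ∀ W ∈ (univ : Finset V).powersetCard m, ∑ U ∈ W.powersetCard d, (deg H U + 1) =
        ∑ U ∈ (univ : Finset V).powersetCard d, if U ⊆ W then deg H U + 1 else 0 := by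
      intro W _
      rw [← Finset.sum_filter]
      refine Finset.sum_congr ?_ fun _ _ => rfl
      ext U
      simp only [Finset.mem_filter, Finset.mem_powersetCard, Finset.subset_univ, true_and]
      tauto
    rw [Finset.sum_congr rfl e1, Finset.sum_comm]
    have e2 : ∀ U ∈ (univ : Finset V).powersetCard d,
        ∑ W ∈ (univ : Finset V).powersetCard m, (if U ⊆ W then deg H U + 1 else 0) =
        (n - d).choose (m - d) * (deg H U + 1) := by
      intro U hU
      rw [Finset.mem_powersetCard] at hU
      rw [← Finset.sum_filter, Finset.sum_const, smul_eq_mul, card_supersets U m (by omega), hU.2]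
    rw [Finset.sum_congr rfl e2, ← Finset.mul_sum, Finset.sum_add_distrib, sum_deg H hH,
      Finset.sum_const, smul_eq_mul, mul_one, Finset.card_powersetCard, Finset.card_univ]
  have hsplit : ∑ W ∈ (univ : Finset V).powersetCard m, ∑ U ∈ W.powersetCard d, (deg H U + 1) =
      ∑ W ∈ ((univ : Finset V).powersetCard m).filter (fun W => CopyIn H t e W),
        ∑ U ∈ W.powersetCard d, (deg H U + 1) +
      ∑ W ∈ (free H t e).filter (fun W => W.card = m), ∑ U ∈ W.powersetCard d, (deg H U + 1) := by
    rw [← Finset.sum_filter_add_sum_filter_not _ (fun W => CopyIn H t e W)]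
    congr 1
    refine Finset.sum_congr ?_ fun _ _ => rfl
    ext W
    simp only [Finset.mem_filter, Finset.mem_powersetCard, Finset.subset_univ, true_and, mem_free]
    tauto
  have hA : ∑ W ∈ ((univ : Finset V).powersetCard m).filter (fun W => CopyIn H t e W),
        ∑ U ∈ W.powersetCard d, (deg H U + 1) ≤
      (((univ : Finset V).powersetCard m).filter (fun W => CopyIn H t e W)).card *
        (m.choose d * (n - d + 1)) := by
    rw [← smul_eq_mul, ← Finset.sum_const]
    refine Finset.sum_le_sum fun W hW => ?_
    rw [Finset.mem_filter, Finset.mem_powersetCard] at hW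
    have e3 : ∑ U ∈ W.powersetCard d, (deg H U + 1) ≤ ∑ U ∈ W.powersetCard d, (n - d + 1) := by
      refine Finset.sum_le_sum fun U hU => ?_
      rw [Finset.mem_powersetCard] at hU
      have := deg_le H hH U hU.2
      omega
    rw [Finset.sum_const, smul_eq_mul, Finset.card_powersetCard, hW.1.2] at e3
    exact e3
  set A := (((univ : Finset V).powersetCard m).filter (fun W => CopyIn H t e W)).card with hAdef
  have key : (n - d).choose (m - d) * ((d + 1) * H.card + n.choose d) ≤
      A * (m.choose d * (n - d + 1)) + t * (n - d + 1).choose (m - d + 1) * n.choose d := by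
    rw [← hall, hsplit]
    exact Nat.add_le_add hA h1
  have c1 : n.choose m * m.choose d = n.choose d * (n - d).choose (m - d) := Nat.choose_mul hdm
  have c2 : (n - d + 1) * (n - d).choose (m - d) = (n - d + 1).choose (m - d + 1) * (m - d + 1) :=
    Nat.add_one_mul_choose_eq _ _
  -- rational form
  have q1 : ((n : ℚ) - d + 1) = ((n - d + 1 : ℕ) : ℚ) := by
    push_cast [Nat.cast_sub (show d ≤ n by omega)]; ring
  have q2 : ((m : ℚ) - d + 1) = ((m - d + 1 : ℕ) : ℚ) := by
    push_cast [Nat.cast_sub hdm]; ring
  rw [q1, q2]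
  set b : ℚ := ((n - d).choose (m - d) : ℚ) with hb
  set c : ℚ := (n.choose d : ℚ) with hc
  set N : ℚ := ((n - d + 1 : ℕ) : ℚ) with hN
  set M : ℚ := ((m - d + 1 : ℕ) : ℚ) with hM
  set k : ℚ := (m.choose d : ℚ) with hk
  set B : ℚ := ((n - d + 1).choose (m - d + 1) : ℚ) with hB
  set g : ℚ := (n.choose m : ℚ) with hg
  have p1 : 0 < b := by rw [hb]; exact_mod_cast Nat.choose_pos (show m - d ≤ n - d by omega)
  have p2 : 0 < c := by rw [hc]; exact_mod_cast Nat.choose_pos (show d ≤ n by omega)
  have p3 : 0 < N := by rw [hN]; positivity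
  have p4 : 0 < M := by rw [hM]; positivity
  have p5 : 0 < k := by rw [hk]; exact_mod_cast Nat.choose_pos hdm
  have c1' : g * k = c * b := by
    rw [hg, hk, hc, hb]; exact_mod_cast c1
  have c2' : N * b = B * M := by
    rw [hN, hb, hB, hM]; exact_mod_cast c2
  have key' : b * (((d : ℚ) + 1) * H.card + c) ≤ (A : ℚ) * (k * N) + (t : ℚ) * B * c := by
    rw [hb, hc, hk, hN, hB]
    exact_mod_cast key
  have hBval : B = N * b / M := by
    rw [c2', mul_div_assoc, div_self p4.ne', mul_one]
  have hg' : g = c * b / k := by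
    rw [← c1', mul_div_assoc, div_self p5.ne', mul_one]
  rw [hBval] at key'
  rw [hg']
  have e4 : ((((d : ℚ) + 1) * H.card / c + 1) / N - (t : ℚ) / M) * (c * b / k) =
      (b * (((d : ℚ) + 1) * H.card + c) - (t : ℚ) * (N * b / M) * c) / (k * N) := by
    field_simp
  rw [e4, div_le_iff₀ (by positivity)]
  linarith

end Pool.Agent.H669.Kal
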