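import Pool.Agent.H669.Kal.Core

/-!
# The LYM inequality for vertex sets without a copy of a tight tree, and its consequences
-/

set_option autoImplicit false

namespace Pool.Agent.H669.Kal

open Finset ES903 H223R3.Kalai

open scoped FinsetFamily

section mono

variable {V : Type*} [DecidableEq V]

/-- For a decreasing function the layers below a given one contribute at least as much. -/
theorem E_ge_layer (s : ℕ) : ∀ (r : ℕ) (R : Finset V), R.card = r → s ≤ r →
    ∀ φ : Finset V → ℚ, (∀ S T, S ⊆ T → T ⊆ R → φ T ≤ φ S) → (∀ S, 0 ≤ φ S) →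
    ((s : ℚ) + 1) / (R.card.choose s : ℚ) * ∑ S ∈ R.powersetCard s, φ S ≤ E R φ := by
  intro r
  induction r with
  | zero =>
    intro R hR hs φ hφ h0
    obtain rfl : s = 0 := by omega
    rw [Finset.card_eq_zero] at hR
    subst hR
    simp [E]
  | succ r ih =>
    intro R hR hs φ hφ h0
    have hRpos : (0 : ℚ) < (R.card : ℚ) := by rw [hR]; positivity
    rcases Nat.lt_or_ge s (r + 1) with hs' | hs'
    · have h1 := E_last R φ
      have h2 : ∀ x ∈ R, ((s : ℚ) + 1) / (r.choose s : ℚ) *
          ∑ S ∈ (R.erase x).powersetCard s, φ S ≤ E (R.erase x) φ := by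
        intro x hx
        have hc : (R.erase x).card = r := by rw [Finset.card_erase_of_mem hx, hR]; rfl
        have := ih (R.erase x) hc (by omega) φ
          (fun S T hST hT => hφ S T hST (hT.trans (Finset.erase_subset _ _))) h0
        rwa [hc] at this
      have h3 := Finset.sum_le_sum h2
      rw [h1, ← Finset.mul_sum] at h3
      have h4 : ∑ x ∈ R, ∑ S ∈ (R.erase x).powersetCard s, φ S =
          ((R.card : ℚ) - s) * ∑ S ∈ R.powersetCard s, φ S := by
        have h5 : ∀ x ∈ R, ∑ S ∈ (R.erase x).powersetCard s, φ S =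
            ∑ S ∈ R.powersetCard s, if x ∉ S then φ S else 0 := by
          intro x hx
          rw [← Finset.sum_filter]
          refine Finset.sum_congr ?_ fun _ _ => rfl
          ext S
          simp only [Finset.mem_powersetCard, Finset.mem_filter, Finset.subset_erase]
          tauto
        rw [Finset.sum_congr rfl h5, Finset.sum_comm, Finset.mul_sum]
        refine Finset.sum_congr rfl fun S hS => ?_
        obtain ⟨hS1, hS2⟩ := Finset.mem_powersetCard.1 hS
        rw [← Finset.sum_filter, Finset.sum_const, nsmul_eq_mul]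
        congr 1
        have h6 : R.filter (fun x => x ∉ S) = R \ S := by
          ext x; simp
        rw [h6, Finset.card_sdiff_of_subset hS1, hS2, Nat.cast_sub (by omega)]
      rw [h4] at h3
      have h7 : (0 : ℚ) ≤ φ R := h0 R
      have h8 : (R.card : ℚ) * (E R φ - φ R) ≤ (R.card : ℚ) * E R φ := by
        have := mul_nonneg hRpos.le h7
        linarith
      have h9 := h3.trans h8
      have hch : ((R.card.choose s : ℕ) : ℚ) * ((R.card : ℚ) - s) =
          (R.card : ℚ) * (r.choose s : ℚ) := by
        rw [hR]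
        have e1 := Nat.add_one_mul_choose_eq r s
        have e2 := Nat.choose_succ_right_eq (r + 1) s
        have e3 : (((r + 1) * r.choose s : ℕ) : ℚ) =
            (((r + 1).choose s * (r + 1 - s) : ℕ) : ℚ) := by
          exact_mod_cast e1.trans e2
        push_cast [Nat.cast_sub (show s ≤ r + 1 by omega)] at e3
        push_cast
        linarith
      have p1 : (0 : ℚ) < ((r.choose s : ℕ) : ℚ) := by
        exact_mod_cast Nat.choose_pos (show s ≤ r by omega)
      have p2 : (0 : ℚ) < ((R.card.choose s : ℕ) : ℚ) := by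
        exact_mod_cast Nat.choose_pos (show s ≤ R.card by omega)
      set X := ∑ S ∈ R.powersetCard s, φ S with hX
      have h10 : ((s : ℚ) + 1) / (r.choose s : ℚ) * (((R.card : ℚ) - s) * X) =
          (R.card : ℚ) * (((s : ℚ) + 1) / (R.card.choose s : ℚ) * X) := by
        rw [div_mul_eq_mul_div, div_mul_eq_mul_div, ← mul_div_assoc,
          div_eq_div_iff p1.ne' p2.ne']
        calc _ = ((s : ℚ) + 1) * X * (((R.card.choose s : ℕ) : ℚ) * ((R.card : ℚ) - s)) := by ring
          _ = _ := by rw [hch]; ring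
      rw [h10] at h9
      exact le_of_mul_le_mul_left h9 hRpos
    · obtain rfl : s = r + 1 := by omega
      have h1 : E R (fun _ => φ R) ≤ E R φ := E_mono R fun S hS => hφ S R hS le_rfl
      have h2 : E R (fun _ => φ R) = ((R.card : ℚ) + 1) * φ R := by
        have h3 := E_one R
        have h4 : E R (fun _ => φ R) = φ R * E R (fun _ => 1) := by
          unfold E
          rw [Finset.mul_sum]
          refine Finset.sum_congr rfl fun S _ => ?_
          ring
        rw [h4, h3]
        ring
      have h5 : R.powersetCard (r + 1) = {R} := by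
        rw [← hR, Finset.powersetCard_self]
      rw [h5, Finset.sum_singleton, hR, Nat.choose_self]
      rw [h2, hR] at h1
      push_cast at h1 ⊢
      simpa using h1

end mono

section lym

variable {V : Type*} [DecidableEq V] [Fintype V] {d : ℕ}

open Classical in
/-- the vertex sets which contain no copy of the tree -/
noncomputable def free (H : Finset (Finset V)) (t : ℕ) (e : ℕ → Finset ℕ) : Finset (Finset V) :=
  univ.filter fun W => ¬ CopyIn H t e W

theorem mem_free (H : Finset (Finset V)) (t : ℕ) (e : ℕ → Finset ℕ) (W : Finset V) :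
    W ∈ free H t e ↔ ¬ CopyIn H t e W := by
  simp [free]

omit [Fintype V] in
theorem card_of_mem_shadow (H : Finset (Finset V)) (hH : ∀ h ∈ H, h.card = d + 1)
    {U : Finset V} (hU : U ∈ ∂ H) : U.card = d := by
  obtain ⟨h, hh, a, ha, rfl⟩ := Finset.mem_shadow_iff.1 hU
  rw [Finset.card_erase_of_mem ha, hH h hh]
  rfl

open Classical in
theorem E_eq (H : Finset (Finset V)) (t : ℕ) (e : ℕ → Finset ℕ) (U : Finset V) :
    E (univ \ U) (Fail fun S => CopyIn H t e (S ∪ U)) =
      ∑ W ∈ (free H t e).filter (fun W => U ⊆ W),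
        1 / ((Fintype.card V - U.card).choose (W.card - U.card) : ℚ) := by
  unfold E Fail
  have hR : (univ \ U : Finset V).card = Fintype.card V - U.card := by
    rw [Finset.card_sdiff_of_subset (Finset.subset_univ _), Finset.card_univ]
  have h1 : ∀ S : Finset V, (if (fun S => CopyIn H t e (S ∪ U)) S then (0 : ℚ) else 1) /
      ((univ \ U : Finset V).card.choose S.card : ℚ) =
      if S ∪ U ∈ free H t e then
        1 / ((Fintype.card V - U.card).choose S.card : ℚ) else 0 := by
    intro S
    rw [hR]
    by_cases h : CopyIn H t e (S ∪ U)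
    · simp [h, mem_free]
    · simp [h, mem_free]
  rw [Finset.sum_congr rfl fun S _ => h1 S, ← Finset.sum_filter]
  refine Finset.sum_nbij' (fun S => S ∪ U) (fun W => W \ U) ?_ ?_ ?_ ?_ ?_
  · intro S hS
    rw [Finset.mem_filter] at hS ⊢
    exact ⟨hS.2, Finset.subset_union_right⟩
  · intro W hW
    rw [Finset.mem_filter] at hW ⊢
    rw [Finset.mem_powerset, Finset.sdiff_union_of_subset hW.2]
    exact ⟨Finset.sdiff_subset_sdiff (Finset.subset_univ _) le_rfl, hW.1⟩
  · intro S hS
    rw [Finset.mem_filter, Finset.mem_powerset] at hS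
    have hd : Disjoint S U := Finset.disjoint_of_subset_left hS.1 Finset.sdiff_disjoint
    rw [Finset.union_sdiff_right, Finset.sdiff_eq_self_of_disjoint hd]
  · intro W hW
    rw [Finset.mem_filter] at hW
    exact Finset.sdiff_union_of_subset hW.2
  · intro S hS
    rw [Finset.mem_filter, Finset.mem_powerset] at hS
    have hd : Disjoint S U := Finset.disjoint_of_subset_left hS.1 Finset.sdiff_disjoint
    rw [Finset.card_union_of_disjoint hd, Nat.add_sub_cancel]

open Classical in
/-- the inequality of LYM type -/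
theorem lym (H : Finset (Finset V)) (hH : ∀ h ∈ H, h.card = d + 1) (t : ℕ) (ht : 1 ≤ t)
    (e : ℕ → Finset ℕ) (he : IsTightTree (d + 1) t e) :
    ∑ W ∈ free H t e, (∑ U ∈ (∂ H).filter (fun U => U ⊆ W), ((deg H U : ℚ) + 1)) /
        ((Fintype.card V - d).choose (W.card - d) : ℚ) ≤
      (t : ℚ) * ((Fintype.card V : ℚ) - d + 1) * ((∂ H).card : ℚ) := by
  refine le_trans (le_of_eq ?_) (cost_unordered H hH t ht e he)
  have h1 : ∀ W ∈ free H t e, (∑ U ∈ (∂ H).filter (fun U => U ⊆ W), ((deg H U : ℚ) + 1)) /
        ((Fintype.card V - d).choose (W.card - d) : ℚ) =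
      ∑ U ∈ ∂ H, if U ⊆ W then ((deg H U : ℚ) + 1) *
        (1 / ((Fintype.card V - U.card).choose (W.card - U.card) : ℚ)) else 0 := by
    intro W _
    rw [Finset.sum_div, Finset.sum_filter]
    refine Finset.sum_congr rfl fun U hU => ?_
    rw [card_of_mem_shadow H hH hU]
    split_ifs
    · rw [mul_one_div]
    · rfl
  rw [Finset.sum_congr rfl h1, Finset.sum_comm]
  refine Finset.sum_congr rfl fun U _ => ?_
  rw [E_eq, Finset.mul_sum, Finset.sum_filter]

open Classical in
/-- one layer -/
theorem layer (H : Finset (Finset V)) (hH : ∀ h ∈ H, h.card = d + 1) (t : ℕ) (ht : 1 ≤ t)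
    (e : ℕ → Finset ℕ) (he : IsTightTree (d + 1) t e) (m : ℕ) (hdm : d ≤ m)
    (hm : m ≤ Fintype.card V) :
    ∑ W ∈ (free H t e).filter (fun W => W.card = m),
        ∑ U ∈ (∂ H).filter (fun U => U ⊆ W), (deg H U + 1) ≤
      t * (Fintype.card V - d + 1).choose (m - d + 1) * (∂ H).card := by
  have hc := cost_unordered H hH t ht e he
  have h1 : ∀ U ∈ ∂ H, ((m - d + 1 : ℕ) : ℚ) / ((Fintype.card V - d).choose (m - d) : ℚ) *
      ((((free H t e).filter (fun W => W.card = m)).filter (fun W => U ⊆ W)).card : ℚ) ≤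
      E (univ \ U) (Fail fun S => CopyIn H t e (S ∪ U)) := by
    intro U hU
    have hUd := card_of_mem_shadow H hH hU
    have hR : (univ \ U : Finset V).card = Fintype.card V - d := by
      rw [Finset.card_sdiff_of_subset (Finset.subset_univ _), Finset.card_univ, hUd]
    have h2 := E_ge_layer (m - d) (Fintype.card V - d) (univ \ U) hR (by omega)
      (Fail fun S => CopyIn H t e (S ∪ U))
      (fun S T hST _ => Fail_mono fun h => h.mono (Finset.union_subset_union_left hST))
      (Fail_nonneg _)
    rw [hR] at h2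
    refine le_trans (le_of_eq ?_) h2
    push_cast
    congr 1
    have h3 : ∀ S, Fail (fun S => CopyIn H t e (S ∪ U)) S =
        if S ∪ U ∈ free H t e then (1 : ℚ) else 0 := by
      intro S
      unfold Fail
      by_cases h : CopyIn H t e (S ∪ U)
      · simp [h, mem_free]
      · simp [h, mem_free]
    rw [Finset.sum_congr rfl fun S _ => h3 S, Finset.sum_boole]
    congr 1
    refine Finset.card_nbij' (fun W => W \ U) (fun S => S ∪ U) ?_ ?_ ?_ ?_
    · intro W hW
      simp only [Finset.coe_filter, Finset.mem_filter, Set.mem_ofPred_eq,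
        Finset.mem_powersetCard] at hW ⊢
      rw [Finset.sdiff_union_of_subset hW.2]
      refine ⟨⟨Finset.sdiff_subset_sdiff (Finset.subset_univ _) le_rfl, ?_⟩, hW.1.1⟩
      rw [Finset.card_sdiff_of_subset hW.2, hW.1.2, hUd]
    · intro S hS
      simp only [Finset.coe_filter, Finset.mem_filter, Set.mem_ofPred_eq,
        Finset.mem_powersetCard] at hS ⊢
      have hd : Disjoint S U := Finset.disjoint_of_subset_left hS.1.1 Finset.sdiff_disjoint
      refine ⟨⟨hS.2, ?_⟩, Finset.subset_union_right⟩
      rw [Finset.card_union_of_disjoint hd, hS.1.2, hUd]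
      omega
    · intro W hW
      simp only [Finset.coe_filter, Finset.mem_filter, Set.mem_ofPred_eq] at hW
      exact Finset.sdiff_union_of_subset hW.2
    · intro S hS
      simp only [Finset.coe_filter, Set.mem_ofPred_eq, Finset.mem_powersetCard] at hS
      have hd : Disjoint S U := Finset.disjoint_of_subset_left hS.1.1 Finset.sdiff_disjoint
      show (S ∪ U) \ U = S
      rw [Finset.union_sdiff_right, Finset.sdiff_eq_self_of_disjoint hd]
  have h2 : ∑ U ∈ ∂ H, ((deg H U : ℚ) + 1) *
      (((m - d + 1 : ℕ) : ℚ) / ((Fintype.card V - d).choose (m - d) : ℚ) *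
      ((((free H t e).filter (fun W => W.card = m)).filter (fun W => U ⊆ W)).card : ℚ)) ≤
      (t : ℚ) * ((Fintype.card V : ℚ) - d + 1) * ((∂ H).card : ℚ) :=
    le_trans (Finset.sum_le_sum fun U hU => mul_le_mul_of_nonneg_left (h1 U hU) (by positivity)) hc
  have h3 : ((∑ W ∈ (free H t e).filter (fun W => W.card = m),
        ∑ U ∈ (∂ H).filter (fun U => U ⊆ W), (deg H U + 1) : ℕ) : ℚ) =
      ∑ U ∈ ∂ H, ((deg H U : ℚ) + 1) *
      ((((free H t e).filter (fun W => W.card = m)).filter (fun W => U ⊆ W)).card : ℚ) := by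
    push_cast
    rw [Finset.sum_congr rfl fun W _ => Finset.sum_filter (fun U => U ⊆ W)
      (fun U => (deg H U : ℚ) + 1), Finset.sum_comm]
    refine Finset.sum_congr rfl fun U _ => ?_
    rw [← Finset.sum_filter, Finset.sum_const, nsmul_eq_mul]
    ring
  have p1 : (0 : ℚ) < ((Fintype.card V - d).choose (m - d) : ℚ) := by
    exact_mod_cast Nat.choose_pos (show m - d ≤ Fintype.card V - d by omega)
  have h4 : ∑ U ∈ ∂ H, ((deg H U : ℚ) + 1) *
      (((m - d + 1 : ℕ) : ℚ) / ((Fintype.card V - d).choose (m - d) : ℚ) *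
      ((((free H t e).filter (fun W => W.card = m)).filter (fun W => U ⊆ W)).card : ℚ)) =
      ((m - d + 1 : ℕ) : ℚ) / ((Fintype.card V - d).choose (m - d) : ℚ) *
      ((∑ W ∈ (free H t e).filter (fun W => W.card = m),
        ∑ U ∈ (∂ H).filter (fun U => U ⊆ W), (deg H U + 1) : ℕ) : ℚ) := by
    rw [h3, Finset.mul_sum]
    refine Finset.sum_congr rfl fun U _ => ?_
    ring
  rw [h4, div_mul_eq_mul_div, div_le_iff₀ p1] at h2
  have h5 : ((Fintype.card V - d + 1 : ℕ) : ℚ) * ((Fintype.card V - d).choose (m - d) : ℚ) =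
      ((Fintype.card V - d + 1).choose (m - d + 1) : ℚ) * ((m - d + 1 : ℕ) : ℚ) := by
    exact_mod_cast Nat.add_one_mul_choose_eq (Fintype.card V - d) (m - d)
  have h6 : ((m - d + 1 : ℕ) : ℚ) * ((∑ W ∈ (free H t e).filter (fun W => W.card = m),
        ∑ U ∈ (∂ H).filter (fun U => U ⊆ W), (deg H U + 1) : ℕ) : ℚ) ≤
      ((m - d + 1 : ℕ) : ℚ) *
        ((t * (Fintype.card V - d + 1).choose (m - d + 1) * (∂ H).card : ℕ) : ℚ) := by
    refine h2.trans (le_of_eq ?_)
    have h7 : ((Fintype.card V : ℚ) - d + 1) = ((Fintype.card V - d + 1 : ℕ) : ℚ) := by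
      push_cast [Nat.cast_sub (show d ≤ Fintype.card V by omega)]
      ring
    rw [h7]
    calc (t : ℚ) * ((Fintype.card V - d + 1 : ℕ) : ℚ) * ((∂ H).card : ℚ) *
          ((Fintype.card V - d).choose (m - d) : ℚ)
        = (t : ℚ) * ((∂ H).card : ℚ) * (((Fintype.card V - d + 1 : ℕ) : ℚ) *
          ((Fintype.card V - d).choose (m - d) : ℚ)) := by ring
      _ = _ := by rw [h5]; push_cast; ring
  have h8 := le_of_mul_le_mul_left h6 (by positivity)
  exact_mod_cast h8

end lym

end Pool.Agent.H669.Kal
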