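import Pool.Agent.H669.Kal.Frac

/-!
# Equality for complete hypergraphs
-/

set_option autoImplicit false

namespace Pool.Agent.H669.Kal

open Finset ES903 H223R3.Kalai

open scoped FinsetFamily

/-- the number of vertices of a tight tree -/
theorem card_vertices {d t : ℕ} {e : ℕ → Finset ℕ} (he : IsTightTree (d + 1) t e) :
    ∀ i, 1 ≤ i → i ≤ t → ((Finset.range i).biUnion e).card = d + i := by
  intro i hi
  induction i, hi using Nat.le_induction with
  | base =>
    intro ht
    simp [he.1 0 (by omega)]
  | succ i hi ih =>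
    intro ht
    obtain ⟨v, hv, hnew, j, hj, hsub⟩ := he.2 i (by omega) (by omega)
    have h1 : (Finset.range (i + 1)).biUnion e = insert v ((Finset.range i).biUnion e) := by
      ext x
      simp only [Finset.mem_biUnion, Finset.mem_range, Finset.mem_insert]
      constructor
      · rintro ⟨k, hk, hx⟩
        rcases Nat.lt_succ_iff_lt_or_eq.1 hk with h | rfl
        · exact Or.inr ⟨k, h, hx⟩
        · by_cases hxv : x = v
          · exact Or.inl hxv
          · exact Or.inr ⟨j, hj, hsub (by simp [hx, hxv])⟩
      · rintro (rfl | ⟨k, hk, hx⟩)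
        · exact ⟨i, by omega, hv⟩
        · exact ⟨k, by omega, hx⟩
    rw [h1, Finset.card_insert_of_notMem, ih (by omega)]
    · ring
    · rw [Finset.mem_biUnion]
      rintro ⟨k, hk, hx⟩
      exact hnew k (Finset.mem_range.1 hk) hx

variable {V : Type*} [DecidableEq V] [Fintype V] {d : ℕ}

theorem copyIn_complete (t : ℕ) (ht : 1 ≤ t) (e : ℕ → Finset ℕ) (he : IsTightTree (d + 1) t e)
    (W : Finset V) :
    CopyIn ((univ : Finset V).powersetCard (d + 1)) t e W ↔ d + t ≤ W.card := by
  classical
  have hv := card_vertices he t ht le_rfl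
  constructor
  · rintro ⟨f, h1, h2⟩
    rw [← hv]
    refine Finset.card_le_card_of_injOn f ?_ ?_
    · intro x hx
      rw [Finset.mem_coe, Finset.mem_biUnion] at hx
      obtain ⟨i, hi, hx⟩ := hx
      exact (h2 i (Finset.mem_range.1 hi)).2 (Finset.mem_image_of_mem _ hx)
    · intro x hx y hy hxy
      rw [Finset.mem_coe, Finset.mem_biUnion] at hx hy
      obtain ⟨i, hi, hx⟩ := hx
      obtain ⟨j, hj, hy⟩ := hy
      exact h1 ⟨i, Finset.mem_range.1 hi, hx⟩ ⟨j, Finset.mem_range.1 hj, hy⟩ hxy
  · intro h
    rw [← hv] at h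
    set X := (Finset.range t).biUnion e with hX
    obtain ⟨W', hW', hc⟩ := Finset.exists_subset_card_eq h
    have hne : W'.Nonempty := by
      rw [← Finset.card_pos, hc, hv]
      omega
    obtain ⟨w₀, _⟩ := hne
    let E := Finset.equivOfCardEq hc.symm
    let f : ℕ → V := fun x => if hx : x ∈ X then (E ⟨x, hx⟩ : V) else w₀
    have hf : ∀ x (hx : x ∈ X), f x = (E ⟨x, hx⟩ : V) := fun x hx => dif_pos hx
    have hinj : Set.InjOn f (X : Set ℕ) := by
      intro x hx y hy hxy
      rw [hf x hx, hf y hy] at hxy
      have := E.injective (Subtype.ext hxy)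
      exact congrArg Subtype.val this
    have hsub : ∀ i, i < t → e i ⊆ X := fun i hi x hx =>
      Finset.mem_biUnion.2 ⟨i, Finset.mem_range.2 hi, hx⟩
    refine ⟨f, ?_, fun i hi => ⟨?_, ?_⟩⟩
    · rintro x ⟨i, hi, hx⟩ y ⟨j, hj, hy⟩ hxy
      exact hinj (hsub i hi hx) (hsub j hj hy) hxy
    · rw [Finset.mem_powersetCard]
      refine ⟨Finset.subset_univ _, ?_⟩
      rw [Finset.card_image_of_injOn (hinj.mono (by exact_mod_cast hsub i hi)), he.1 i hi]
    · intro y hy
      obtain ⟨x, hx, rfl⟩ := Finset.mem_image.1 hy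
      rw [hf x (hsub i hi hx)]
      exact hW' (E ⟨x, hsub i hi hx⟩).2

theorem shadow_complete (hn : d + 1 ≤ Fintype.card V) :
    ∂ ((univ : Finset V).powersetCard (d + 1)) = (univ : Finset V).powersetCard d := by
  ext U
  constructor
  · intro hU
    exact Finset.mem_powersetCard.2 ⟨Finset.subset_univ _, card_of_mem_shadow _
      (fun h hh => (Finset.mem_powersetCard.1 hh).2) hU⟩
  · intro hU
    have hU' := (Finset.mem_powersetCard.1 hU).2
    by_contra hno
    have h1 := card_supersets U (d + 1) (by omega)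
    rw [hU', Nat.add_sub_cancel_left, Nat.choose_one_right] at h1
    have h2 : 0 < (((univ : Finset V).powersetCard (d + 1)).filter (fun W => U ⊆ W)).card := by
      omega
    have h3 := deg_pos_of_mem _ (fun h hh => (Finset.mem_powersetCard.1 hh).2) U hU' hno
    unfold deg at h3
    omega

theorem deg_complete (U : Finset V) (hU : U.card = d) :
    deg ((univ : Finset V).powersetCard (d + 1)) U = Fintype.card V - d := by
  unfold deg
  rw [card_supersets U (d + 1) (by omega), hU, Nat.add_sub_cancel_left, Nat.choose_one_right]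

open Classical in
theorem lym_complete (t : ℕ) (ht : 1 ≤ t) (e : ℕ → Finset ℕ) (he : IsTightTree (d + 1) t e)
    (hn : d + 1 ≤ Fintype.card V) (hnt : d + t ≤ Fintype.card V + 1) :
    ∑ W ∈ free ((univ : Finset V).powersetCard (d + 1)) t e,
        (∑ U ∈ (∂ ((univ : Finset V).powersetCard (d + 1))).filter (fun U => U ⊆ W),
          ((deg ((univ : Finset V).powersetCard (d + 1)) U : ℚ) + 1)) /
        ((Fintype.card V - d).choose (W.card - d) : ℚ) =
      (t : ℚ) * ((Fintype.card V : ℚ) - d + 1) *
        ((∂ ((univ : Finset V).powersetCard (d + 1))).card : ℚ) := by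
  rw [shadow_complete hn, Finset.card_powersetCard, Finset.card_univ]
  set n := Fintype.card V with hndef
  have h1 : ∀ W : Finset V, (∑ U ∈ ((univ : Finset V).powersetCard d).filter (fun U => U ⊆ W),
          ((deg ((univ : Finset V).powersetCard (d + 1)) U : ℚ) + 1)) =
        (W.card.choose d : ℚ) * ((n : ℚ) - d + 1) := by
    intro W
    have e1 : ((univ : Finset V).powersetCard d).filter (fun U => U ⊆ W) = W.powersetCard d := by
      ext U
      simp only [Finset.mem_filter, Finset.mem_powersetCard, Finset.subset_univ, true_and]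
      tauto
    have e2 : ∀ U ∈ W.powersetCard d,
        ((deg ((univ : Finset V).powersetCard (d + 1)) U : ℚ) + 1) = (n : ℚ) - d + 1 := by
      intro U hU
      rw [deg_complete U (Finset.mem_powersetCard.1 hU).2, Nat.cast_sub (by omega)]
    rw [e1, Finset.sum_congr rfl e2, Finset.sum_const, nsmul_eq_mul, Finset.card_powersetCard]
  have h2 : ∑ W ∈ free ((univ : Finset V).powersetCard (d + 1)) t e,
        (∑ U ∈ ((univ : Finset V).powersetCard d).filter (fun U => U ⊆ W),
          ((deg ((univ : Finset V).powersetCard (d + 1)) U : ℚ) + 1)) /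
        ((n - d).choose (W.card - d) : ℚ) =
      ∑ W ∈ (univ : Finset V).powerset, (if W.card < d + t then
        (W.card.choose d : ℚ) * ((n : ℚ) - d + 1) / ((n - d).choose (W.card - d) : ℚ) else 0) := by
    rw [Finset.powerset_univ, ← Finset.sum_filter]
    refine Finset.sum_congr ?_ fun W _ => by rw [h1 W]
    ext W
    rw [mem_free, copyIn_complete t ht e he, Finset.mem_filter, not_le]
    simp
  rw [h2, Finset.sum_powerset_apply_card (fun m => if m < d + t then
    (m.choose d : ℚ) * ((n : ℚ) - d + 1) / ((n - d).choose (m - d) : ℚ) else 0), Finset.card_univ,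
    ← hndef]
  have h3 : ∀ m ∈ Finset.range (n + 1), n.choose m • (if m < d + t then
      (m.choose d : ℚ) * ((n : ℚ) - d + 1) / ((n - d).choose (m - d) : ℚ) else 0) =
      if m ∈ Finset.Ico d (d + t) then (n.choose d : ℚ) * ((n : ℚ) - d + 1) else 0 := by
    intro m hm
    rw [Finset.mem_range] at hm
    rw [nsmul_eq_mul]
    by_cases h4 : m < d + t
    · rw [if_pos h4]
      by_cases h5 : d ≤ m
      · rw [if_pos (Finset.mem_Ico.2 ⟨h5, h4⟩)]
        have p1 : (0 : ℚ) < ((n - d).choose (m - d) : ℚ) := by
          exact_mod_cast Nat.choose_pos (show m - d ≤ n - d by omega)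
        have c1 : (n.choose m : ℚ) * (m.choose d : ℚ) = (n.choose d : ℚ) * ((n - d).choose (m - d) : ℚ) := by
          exact_mod_cast Nat.choose_mul (n := n) h5
        rw [← mul_div_assoc, ← mul_assoc, c1, div_eq_iff p1.ne']
        ring
      · rw [if_neg (by rw [Finset.mem_Ico]; omega), Nat.choose_eq_zero_of_lt (by omega : m < d)]
        simp
    · rw [if_neg h4, if_neg (by rw [Finset.mem_Ico]; omega), mul_zero]
  rw [Finset.sum_congr rfl h3, ← Finset.sum_filter]
  have h6 : (Finset.range (n + 1)).filter (fun m => m ∈ Finset.Ico d (d + t)) =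
      Finset.Ico d (d + t) := by
    ext m
    simp only [Finset.mem_filter, Finset.mem_range, Finset.mem_Ico]
    omega
  rw [h6, Finset.sum_const, Nat.card_Ico, nsmul_eq_mul, Nat.add_sub_cancel_left]
  ring

end Pool.Agent.H669.Kal
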